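import Pool.Agent.MP_a96b63_al.Main

set_option autoImplicit false

namespace Pool.Agent.Results.MP_a96b63_al.PositiveDensity
open Pool.Agent.MP_a96b63_al

/-- A positive proportion of the positive integers occur as the number of groups of a squarefree
order. -/
theorem result : ∃ c : ℝ, 0 < c ∧ ∀ N : ℕ,
    c * N ≤ ({y : ℕ | 1 ≤ y ∧ y ≤ N ∧ ∃ x : ℕ, Squarefree x ∧
      ∃ (G : Fin y → Type) (_inst : ∀ i, Group (G i)),
        (∀ i, Nat.card (G i) = x) ∧
        (∀ i j, Nonempty (G i ≃* G j) → i = j) ∧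
        ∀ (H : Type) [Group H], Nat.card H = x → ∃ i, Nonempty (H ≃* G i)}.ncard : ℝ) := by
  classical
  obtain ⟨c, N0, hc, h⟩ := main_large
  refine ⟨min c (1 / (N0 + 1)), lt_min hc (by positivity), fun N => ?_⟩
  have hsub : ((Finset.Icc 1 N).filter fun k => ∃ l, Clean l ∧ la l = k).card ≤
      {y : ℕ | 1 ≤ y ∧ y ≤ N ∧ ∃ x : ℕ, Squarefree x ∧ IsGnu x y}.ncard := by
    rw [← Set.ncard_coe_finset]
    refine Set.ncard_le_ncard (fun k hk => ?_)
      ((Set.finite_Iic N).subset fun y hy => hy.2.1)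
    obtain ⟨h1, l, h2, rfl⟩ := Finset.mem_filter.mp hk
    exact ⟨(Finset.mem_Icc.mp h1).1, (Finset.mem_Icc.mp h1).2, realize h2⟩
  refine le_trans ?_ (Nat.cast_le.mpr hsub)
  rcases le_total N0 N with h1 | h1
  · exact (mul_le_mul_of_nonneg_right (min_le_left _ _) (Nat.cast_nonneg N)).trans (h N h1)
  · rcases Nat.eq_zero_or_pos N with rfl | h2
    · simp
    · have h3 : 1 ≤ ((Finset.Icc 1 N).filter fun k => ∃ l, Clean l ∧ la l = k).card :=
        Finset.card_pos.mpr ⟨1, Finset.mem_filter.mpr ⟨Finset.mem_Icc.mpr ⟨le_rfl, h2⟩, [],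
          ⟨List.nodup_nil, by simp, by simp⟩, rfl⟩⟩
      refine le_trans ?_ (Nat.one_le_cast.mpr h3)
      refine (mul_le_mul_of_nonneg_right (min_le_right _ _) (Nat.cast_nonneg N)).trans ?_
      have : (N : ℝ) ≤ N0 := by exact_mod_cast h1
      rw [one_div, inv_mul_le_iff₀ (by positivity)]
      linarith

end Pool.Agent.Results.MP_a96b63_al.PositiveDensity
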